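import Mathlib

set_option autoImplicit false

namespace Pool.Agent.Results.MP_efe8c5_co.SuspensionGap

open Matrix
open scoped ComplexOrder

/-- `σ` is a magnetic potential on `G`: unimodular on ordered pairs of adjacent vertices, with
`σ y x = (σ x y)⁻¹` (its values on non-adjacent pairs play no role). -/
def IsPotential {V : Type} (G : SimpleGraph V) (σ : V → V → ℂ) : Prop :=
  ∀ x y, G.Adj x y → ‖σ x y‖ = 1 ∧ σ y x = (σ x y)⁻¹

open Classical in
/-- The magnetic Laplacian `Δ^σ f (x) = ∑_{y ∼ x} (f x - σ(x,y) f y)`. -/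
noncomputable def magLap {V : Type} [Fintype V] (G : SimpleGraph V) (σ : V → V → ℂ)
    (f : V → ℂ) (x : V) : ℂ :=
  ∑ y, if G.Adj x y then f x - σ x y * f y else 0

/-- The (real) eigenvalues of the magnetic Laplacian. -/
def eigs {V : Type} [Fintype V] (G : SimpleGraph V) (σ : V → V → ℂ) : Set ℝ :=
  {μ | ∃ f : V → ℂ, f ≠ 0 ∧ ∀ x, magLap G σ f x = (μ : ℂ) * f x}

/-- The smallest eigenvalue `λ₁^σ(G)`. -/
noncomputable def lam {V : Type} [Fintype V] (G : SimpleGraph V) (σ : V → V → ℂ) : ℝ :=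
  sInf (eigs G σ)

/-- The magneto-spectral height `ν(G)`. -/
noncomputable def nu {V : Type} [Fintype V] (G : SimpleGraph V) : ℝ :=
  sSup {r | ∃ σ : V → V → ℂ, IsPotential G σ ∧ r = lam G σ}

/-- The suspension of `G`: one new vertex `none`, adjacent to every vertex of `G`. -/
def susp {V : Type} (G : SimpleGraph V) : SimpleGraph (Option V) where
  Adj
    | none, none => False
    | none, some _ => True
    | some _, none => True
    | some x, some y => G.Adj x y
  symm := ⟨by
    rintro (_ | x) (_ | y) h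
    · exact h
    · trivial
    · trivial
    · exact G.adj_symm h⟩
  loopless := ⟨by
    rintro (_ | x) h
    · exact h
    · exact G.loopless.irrefl x h⟩

section general

variable {V : Type} [Fintype V]

open Classical in
/-- the matrix of the magnetic Laplacian -/
noncomputable def mat (G : SimpleGraph V) (σ : V → V → ℂ) : Matrix V V ℂ :=
  fun x y => (if x = y then (∑ z, if G.Adj x z then (1 : ℂ) else 0) else 0)
    - if G.Adj x y then σ x y else 0

theorem mat_mulVec (G : SimpleGraph V) (σ : V → V → ℂ) (f : V → ℂ) (x : V) :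
    (mat G σ *ᵥ f) x = magLap G σ f x := by
  classical
  simp only [mulVec, dotProduct, mat, magLap, sub_mul, Finset.sum_sub_distrib]
  have h1 : ∑ y, (if x = y then (∑ z, if G.Adj x z then (1 : ℂ) else 0) else 0) * f y
      = (∑ z, if G.Adj x z then (1 : ℂ) else 0) * f x := by
    simp [ite_mul]
  rw [h1, Finset.sum_mul, ← Finset.sum_sub_distrib]
  apply Finset.sum_congr rfl
  intro y _
  split_ifs <;> simp

theorem mat_isHermitian (G : SimpleGraph V) (σ : V → V → ℂ) (hσ : IsPotential G σ) :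
    (mat G σ).IsHermitian := by
  classical
  ext x y
  simp only [conjTranspose_apply, mat, star_sub]
  by_cases hxy : x = y
  · subst hxy
    simp
  · have hyx : ¬ y = x := fun h => hxy h.symm
    simp only [hxy, hyx, if_false, star_zero, zero_sub]
    by_cases hadj : G.Adj x y
    · have hadj' := G.adj_symm hadj
      simp only [hadj, hadj', if_true]
      obtain ⟨h1, h2⟩ := hσ x y hadj
      rw [h2]
      have h3 : (σ x y)⁻¹ = star (σ x y) := by
        rw [Complex.star_def, Complex.inv_def, Complex.normSq_eq_norm_sq, h1]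
        simp
      rw [h3, star_star]
    · have hadj' : ¬ G.Adj y x := fun h => hadj (G.adj_symm h)
      simp [hadj, hadj']

/-- The Rayleigh bound for the smallest eigenvalue. -/
theorem lam_le [Nonempty V] (G : SimpleGraph V) (σ : V → V → ℂ) (hσ : IsPotential G σ) (r : ℝ)
    (hbdd : BddBelow (eigs G σ)) (f : V → ℂ) (hf : f ≠ 0)
    (h : (star f ⬝ᵥ (mat G σ *ᵥ f)).re ≤ r * (star f ⬝ᵥ f).re) : lam G σ ≤ r := by
  classical
  by_contra hc
  push Not at hc
  have hH : (mat G σ - (r : ℂ) • (1 : Matrix V V ℂ)).IsHermitian := by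
    apply (mat_isHermitian G σ hσ).sub
    rw [Matrix.IsHermitian, conjTranspose_smul, conjTranspose_one]
    simp
  have hpd : (mat G σ - (r : ℂ) • (1 : Matrix V V ℂ)).PosDef := by
    rw [hH.posDef_iff_eigenvalues_pos]
    intro i
    have hv := hH.mulVec_eigenvectorBasis i
    have hne : (hH.eigenvectorBasis i).ofLp ≠ 0 := by
      intro h0
      have h1 := hH.eigenvectorBasis.orthonormal.ne_zero i
      apply h1
      ext x
      exact congrFun h0 x
    have hmem : hH.eigenvalues i + r ∈ eigs G σ := by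
      refine ⟨(hH.eigenvectorBasis i).ofLp, hne, fun x => ?_⟩
      rw [← mat_mulVec]
      have := congrFun hv x
      rw [sub_mulVec] at this
      simp only [Pi.sub_apply, smul_mulVec, one_mulVec, Pi.smul_apply, smul_eq_mul] at this
      rw [sub_eq_iff_eq_add] at this
      rw [this]
      simp only [Complex.real_smul]
      push_cast
      ring
    have := csInf_le hbdd hmem
    have h2 : lam G σ ≤ hH.eigenvalues i + r := this
    linarith
  have hpos := (Matrix.posDef_iff_dotProduct_mulVec.1 hpd).2 hf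
  rw [sub_mulVec, dotProduct_sub, smul_mulVec, one_mulVec, dotProduct_smul] at hpos
  have hre : 0 < (star f ⬝ᵥ mat G σ *ᵥ f - (r : ℂ) • (star f ⬝ᵥ f)).re := by
    exact (Complex.lt_def.1 hpos).1
  simp only [Complex.sub_re, smul_eq_mul, Complex.mul_re, Complex.ofReal_re, Complex.ofReal_im,
    zero_mul, sub_zero] at hre
  linarith

theorem eigs_nonneg (G : SimpleGraph V) (σ : V → V → ℂ) (hσ : IsPotential G σ) {μ : ℝ}
    (hμ : μ ∈ eigs G σ) : 0 ≤ μ := by
  classical
  obtain ⟨f, hf, h⟩ := hμ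
  have hne : Nonempty V := by
    by_contra hc
    rw [not_nonempty_iff] at hc
    apply hf
    ext x
    exact hc.elim x
  obtain ⟨x, hx⟩ := Finite.exists_max (fun x => ‖f x‖)
  have hx0 : 0 < ‖f x‖ := by
    rcases (norm_nonneg (f x)).lt_or_eq with h1 | h1
    · exact h1
    · exfalso
      apply hf
      ext y
      have := hx y
      rw [← h1] at this
      simpa using this
  have h1 := congrArg (fun z => (star (f x) * z).re) (h x)
  simp only [magLap, Finset.mul_sum, Complex.re_sum] at h1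
  have h2 : (star (f x) * ((μ : ℂ) * f x)).re = μ * ‖f x‖ ^ 2 := by
    have : star (f x) * ((μ : ℂ) * f x) = (μ : ℂ) * ((starRingEnd ℂ) (f x) * f x) := by
      simp only [Complex.star_def]; ring
    rw [this, Complex.conj_mul', ← Complex.ofReal_pow, ← Complex.ofReal_mul, Complex.ofReal_re]
  rw [h2] at h1
  have h3 : 0 ≤ ∑ y, (star (f x) * (if G.Adj x y then f x - σ x y * f y else 0)).re := by
    apply Finset.sum_nonneg
    intro y _
    split_ifs with hadj
    · have e : star (f x) * (f x - σ x y * f y)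
          = (starRingEnd ℂ) (f x) * f x - (starRingEnd ℂ) (f x) * (σ x y * f y) := by
        simp only [Complex.star_def]; ring
      rw [e, Complex.conj_mul', Complex.sub_re, ← Complex.ofReal_pow, Complex.ofReal_re]
      have h4 : ((starRingEnd ℂ) (f x) * (σ x y * f y)).re ≤ ‖f x‖ ^ 2 := by
        calc ((starRingEnd ℂ) (f x) * (σ x y * f y)).re
            ≤ ‖(starRingEnd ℂ) (f x) * (σ x y * f y)‖ := Complex.re_le_norm _
          _ = ‖f x‖ * ‖f y‖ := by
              rw [norm_mul, norm_mul, (hσ x y hadj).1, one_mul, RCLike.norm_conj]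
          _ ≤ ‖f x‖ * ‖f x‖ := mul_le_mul_of_nonneg_left (hx y) (norm_nonneg _)
          _ = ‖f x‖ ^ 2 := by ring
      linarith
    · simp
  rw [h1] at h3
  by_contra hc
  push Not at hc
  have : μ * ‖f x‖ ^ 2 < 0 := mul_neg_of_neg_of_pos hc (by positivity)
  linarith

theorem eigs_bddBelow (G : SimpleGraph V) (σ : V → V → ℂ) (hσ : IsPotential G σ) :
    BddBelow (eigs G σ) := ⟨0, fun _ hμ => eigs_nonneg G σ hσ hμ⟩

theorem eigs_nonempty [Nonempty V] (G : SimpleGraph V) (σ : V → V → ℂ) (hσ : IsPotential G σ) :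
    (eigs G σ).Nonempty := by
  classical
  have hH := mat_isHermitian G σ hσ
  obtain ⟨i⟩ := ‹Nonempty V›
  have hv := hH.mulVec_eigenvectorBasis i
  have hne : (hH.eigenvectorBasis i).ofLp ≠ 0 := by
    intro h0
    have h1 := hH.eigenvectorBasis.orthonormal.ne_zero i
    apply h1
    ext x
    exact congrFun h0 x
  refine ⟨hH.eigenvalues i, (hH.eigenvectorBasis i).ofLp, hne, fun x => ?_⟩
  rw [← mat_mulVec]
  have := congrFun hv x
  rw [this]
  simp

theorem lam_le_card [Nonempty V] (G : SimpleGraph V) (σ : V → V → ℂ) (hσ : IsPotential G σ) :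
    lam G σ ≤ Fintype.card V := by
  classical
  obtain ⟨x⟩ := ‹Nonempty V›
  have : Nonempty V := ⟨x⟩
  apply lam_le G σ hσ _ (eigs_bddBelow G σ hσ) (Pi.single x 1)
  · intro h0
    have := congrFun h0 x
    simp at this
  · have e1 : star (Pi.single x (1 : ℂ) : V → ℂ) = Pi.single x 1 := by
      ext y
      by_cases h : y = x
      · subst h; simp
      · simp [h]
    rw [e1]
    simp only [single_dotProduct, one_mul, Pi.single_eq_same, Complex.one_re, mul_one,
      mulVec_single_one]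
    simp only [mat, col_apply, if_true, SimpleGraph.irrefl, if_false, sub_zero]
    rw [Complex.re_sum]
    calc ∑ z, (if G.Adj x z then (1 : ℂ) else 0).re ≤ ∑ _z : V, (1 : ℝ) := by
          apply Finset.sum_le_sum
          intro z _
          split_ifs <;> simp
      _ = Fintype.card V := by simp

theorem le_nu [Nonempty V] (G : SimpleGraph V) (σ : V → V → ℂ) (hσ : IsPotential G σ) :
    lam G σ ≤ nu G := by
  apply le_csSup
  · refine ⟨Fintype.card V, ?_⟩
    rintro r ⟨σ', hσ', rfl⟩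
    exact lam_le_card G σ' hσ'
  · exact ⟨σ, hσ, rfl⟩

end general

/-- The complete graph on `{0,1,2,3}` with a pendant vertex `4` attached to `0`. -/
def lolli : SimpleGraph (Fin 5) where
  Adj x y := x ≠ y ∧ ((x ≠ 4 ∧ y ≠ 4) ∨ x = 0 ∨ y = 0)
  symm := ⟨by
    rintro x y ⟨h1, h2⟩
    refine ⟨h1.symm, ?_⟩
    tauto⟩
  loopless := ⟨fun x h => h.1 rfl⟩

instance : DecidableRel lolli.Adj := fun x y => by
  unfold lolli
  infer_instance

theorem lolli_connected : lolli.Connected := by
  rw [SimpleGraph.connected_iff_exists_forall_reachable]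
  refine ⟨0, fun w => ?_⟩
  by_cases h : w = 0
  · subst h
    exact SimpleGraph.Reachable.refl _
  · exact SimpleGraph.Adj.reachable (⟨fun h1 => h h1.symm, Or.inr (Or.inl rfl)⟩ : lolli.Adj 0 w)

theorem real_form (μ g0 g1 g2 g3 g4 : ℝ)
    (e0 : 4 * g0 + g1 + g2 + g3 + g4 = μ * g0)
    (e1 : 3 * g1 + g0 + g2 + g3 = μ * g1)
    (e2 : 3 * g2 + g0 + g1 + g3 = μ * g2)
    (e3 : 3 * g3 + g0 + g1 + g2 = μ * g3)
    (e4 : g4 + g0 = μ * g4) (hμ : μ < 3 / 5) :
    g0 = 0 ∧ g1 = 0 ∧ g2 = 0 ∧ g3 = 0 ∧ g4 = 0 := by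
  have hS : μ * (g0 ^ 2 + g1 ^ 2 + g2 ^ 2 + g3 ^ 2 + g4 ^ 2)
      = g0 * (4 * g0 + g1 + g2 + g3 + g4) + g1 * (3 * g1 + g0 + g2 + g3)
        + g2 * (3 * g2 + g0 + g1 + g3) + g3 * (3 * g3 + g0 + g1 + g2) + g4 * (g4 + g0) := by
    rw [e0, e1, e2, e3, e4]; ring
  have hL : 3 / 5 * (g0 ^ 2 + g1 ^ 2 + g2 ^ 2 + g3 ^ 2 + g4 ^ 2)
      ≤ g0 * (4 * g0 + g1 + g2 + g3 + g4) + g1 * (3 * g1 + g0 + g2 + g3)
        + g2 * (3 * g2 + g0 + g1 + g3) + g3 * (3 * g3 + g0 + g1 + g2) + g4 * (g4 + g0) := by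
    have s1 := sq_nonneg (g4 + 5 / 2 * g0)
    have s2 := sq_nonneg (g0 + 10 / 9 * (g1 + g2 + g3))
    have s3 := sq_nonneg (g1 - g2)
    have s4 := sq_nonneg (g1 - g3)
    have s5 := sq_nonneg (g2 - g3)
    have s6 := sq_nonneg g1
    have s7 := sq_nonneg g2
    have s8 := sq_nonneg g3
    nlinarith
  have hz : g0 ^ 2 + g1 ^ 2 + g2 ^ 2 + g3 ^ 2 + g4 ^ 2 ≤ 0 := by
    by_contra hc
    push Not at hc
    have : μ * (g0 ^ 2 + g1 ^ 2 + g2 ^ 2 + g3 ^ 2 + g4 ^ 2)
        < 3 / 5 * (g0 ^ 2 + g1 ^ 2 + g2 ^ 2 + g3 ^ 2 + g4 ^ 2) := mul_lt_mul_of_pos_right hμ hc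
    linarith
  have q0 := sq_nonneg g0
  have q1 := sq_nonneg g1
  have q2 := sq_nonneg g2
  have q3 := sq_nonneg g3
  have q4 := sq_nonneg g4
  refine ⟨?_, ?_, ?_, ?_, ?_⟩ <;> apply pow_eq_zero_iff (two_ne_zero) |>.1 <;> linarith

theorem nu_lolli : 3 / 5 ≤ nu lolli := by
  have hpot : IsPotential lolli (fun _ _ => (-1 : ℂ)) := by
    intro x y _
    norm_num
  refine le_trans ?_ (le_nu lolli _ hpot)
  apply le_csInf (eigs_nonempty lolli _ hpot)
  rintro μ ⟨f, hf, h⟩
  by_contra hc
  push Not at hc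
  apply hf
  have h0 := h 0
  have h1 := h 1
  have h2 := h 2
  have h3 := h 3
  have h4 := h 4
  simp only [magLap, Fin.sum_univ_five, lolli] at h0 h1 h2 h3 h4
  simp at h0 h1 h2 h3 h4
  have r0 := congrArg Complex.re h0
  have r1 := congrArg Complex.re h1
  have r2 := congrArg Complex.re h2
  have r3 := congrArg Complex.re h3
  have r4 := congrArg Complex.re h4
  have i0 := congrArg Complex.im h0
  have i1 := congrArg Complex.im h1
  have i2 := congrArg Complex.im h2
  have i3 := congrArg Complex.im h3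
  have i4 := congrArg Complex.im h4
  simp at r0 r1 r2 r3 r4 i0 i1 i2 i3 i4
  obtain ⟨a0, a1, a2, a3, a4⟩ := real_form μ (f 0).re (f 1).re (f 2).re (f 3).re (f 4).re
    (by linarith) (by linarith) (by linarith) (by linarith) (by linarith) hc
  obtain ⟨b0, b1, b2, b3, b4⟩ := real_form μ (f 0).im (f 1).im (f 2).im (f 3).im (f 4).im
    (by linarith) (by linarith) (by linarith) (by linarith) (by linarith) hc
  ext x
  fin_cases x
  · exact Complex.ext a0 b0
  · exact Complex.ext a1 b1
  · exact Complex.ext a2 b2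
  · exact Complex.ext a3 b3
  · exact Complex.ext a4 b4

/-- the test vector on the suspension -/
noncomputable def tv (A B : ℂ) : Option (Fin 5) → ℂ
  | none => A / 5
  | some 0 => B / 5
  | some 1 => 0
  | some 2 => 0
  | some 3 => 0
  | some 4 => 1

theorem susp_bound (σ : Option (Fin 5) → Option (Fin 5) → ℂ)
    (hσ : IsPotential (susp lolli) σ) : lam (susp lolli) σ ≤ 39 / 25 := by
  classical
  obtain ⟨A, hA⟩ : ∃ A, A = σ none (some 4) := ⟨_, rfl⟩
  obtain ⟨B, hB⟩ : ∃ B, B = σ (some 0) (some 4) := ⟨_, rfl⟩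
  obtain ⟨C, hC⟩ : ∃ C, C = σ none (some 0) := ⟨_, rfl⟩
  obtain ⟨nA, hA'⟩ := hσ none (some 4) (by simp [susp])
  obtain ⟨nB, hB'⟩ := hσ (some 0) (some 4) (by simp [susp, lolli])
  obtain ⟨nC, hC'⟩ := hσ none (some 0) (by simp [susp])
  rw [← hA] at nA hA'
  rw [← hB] at nB hB'
  rw [← hC] at nC hC'
  have qA : A * starRingEnd ℂ A = 1 := by rw [Complex.mul_conj']; rw [nA]; simp
  have qB : B * starRingEnd ℂ B = 1 := by rw [Complex.mul_conj']; rw [nB]; simp
  have qC : C * starRingEnd ℂ C = 1 := by rw [Complex.mul_conj']; rw [nC]; simp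
  have iA : A⁻¹ = starRingEnd ℂ A := inv_eq_of_mul_eq_one_right qA
  have iB : B⁻¹ = starRingEnd ℂ B := inv_eq_of_mul_eq_one_right qB
  have iC : C⁻¹ = starRingEnd ℂ C := inv_eq_of_mul_eq_one_right qC
  rw [iA] at hA'
  rw [iB] at hB'
  rw [iC] at hC'
  apply lam_le (susp lolli) σ hσ _ (eigs_bddBelow _ σ hσ) (tv A B)
  · intro h0
    have := congrFun h0 (some 4)
    simp [tv] at this
  · simp only [dotProduct, mat_mulVec, Fintype.sum_option, Fin.sum_univ_five, magLap, susp, lolli]
    simp [tv, ← hA, ← hB, ← hC, hA', hB', hC']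
    have n2A : A.re ^ 2 + A.im ^ 2 = 1 := by
      have := Complex.sq_norm A
      rw [nA, Complex.normSq_apply] at this
      linarith
    have n2B : B.re ^ 2 + B.im ^ 2 = 1 := by
      have := Complex.sq_norm B
      rw [nB, Complex.normSq_apply] at this
      linarith
    have n2C : C.re ^ 2 + C.im ^ 2 = 1 := by
      have := Complex.sq_norm C
      rw [nC, Complex.normSq_apply] at this
      linarith
    have hXY : (C.re * B.re - C.im * B.im) ^ 2 + (C.re * B.im + C.im * B.re) ^ 2 = 1 := by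
      have : (C.re * B.re - C.im * B.im) ^ 2 + (C.re * B.im + C.im * B.re) ^ 2
          = (C.re ^ 2 + C.im ^ 2) * (B.re ^ 2 + B.im ^ 2) := by ring
      rw [this, n2B, n2C]; ring
    have k1 := sq_nonneg (A.re + (C.re * B.re - C.im * B.im))
    have k2 := sq_nonneg (A.im + (C.re * B.im + C.im * B.re))
    nlinarith [k1, k2, n2A, n2B, n2C, hXY]

theorem nu_susp : nu (susp lolli) ≤ 39 / 25 := by
  apply csSup_le
  · refine ⟨lam (susp lolli) (fun _ _ => 1), fun _ _ => 1, ?_, rfl⟩
    intro x y _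
    simp
  · rintro r ⟨σ, hσ, rfl⟩
    exact susp_bound σ hσ

/-- **A connected graph on five vertices for which `ν` of the suspension is not `ν + 1`.** -/
theorem result : ∃ G : SimpleGraph (Fin 5), G.Connected ∧ (∀ x, ∃ y, G.Adj x y) ∧
    nu (susp G) ≠ nu G + 1 ∧ nu (susp G) ≤ 39 / 25 ∧ 3 / 5 ≤ nu G := by
  refine ⟨lolli, lolli_connected, ?_, ?_, nu_susp, nu_lolli⟩
  · intro x
    by_cases h : x = 0
    · exact ⟨1, by subst h; simp [lolli]⟩
    · exact ⟨0, ⟨h, Or.inr (Or.inr rfl)⟩⟩
  · have h1 := nu_susp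
    have h2 := nu_lolli
    intro h
    rw [h] at h1
    linarith

end Pool.Agent.Results.MP_efe8c5_co.SuspensionGap
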